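import Pool.Agent.Zk36.CO.Defs
import Pool.Agent.Zk25.NS.CUT

set_option autoImplicit false

/-! # Matching of the exploration path with an arc of the boundary (module MAT of helper36) -/

namespace Pool.Agent.Zk11.CO

open H974 Finset H342P H984P H984N Pool.Agent.Zk36.CO

theorem clamp_nonneg (x : ℝ) : 0 ≤ clamp x := le_max_left _ _

theorem clamp_le_one (x : ℝ) : clamp x ≤ 1 := max_le (by norm_num) (min_le_left _ _)

theorem clamp_mono {x y : ℝ} (h : x ≤ y) : clamp x ≤ clamp y :=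
  max_le_max le_rfl (min_le_min le_rfl h)

theorem clamp_lip (x y : ℝ) : |clamp x - clamp y| ≤ |x - y| := by
  wlog h : x ≤ y generalizing x y with H
  · have := H y x (le_of_not_ge h)
    rwa [abs_sub_comm, abs_sub_comm x]
  have h1 := clamp_mono h
  rw [abs_sub_comm, abs_sub_comm x, abs_of_nonneg (sub_nonneg.2 h1),
    abs_of_nonneg (sub_nonneg.2 h)]
  rcases le_total x 0 with hx | hx
  · rw [pl_clamp_zero hx, sub_zero]
    rcases le_total y 0 with hy | hy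
    · rw [pl_clamp_zero hy]; linarith
    · rcases le_total y 1 with hy1 | hy1
      · rw [pl_clamp_id hy hy1]; linarith
      · rw [pl_clamp_one hy1]; linarith
  · rcases le_total x 1 with hx1 | hx1
    · rw [pl_clamp_id hx hx1]
      rcases le_total y 1 with hy1 | hy1
      · rw [pl_clamp_id (hx.trans h) hy1]
      · rw [pl_clamp_one hy1]; linarith
    · rw [pl_clamp_one hx1, pl_clamp_one (hx1.trans h)]; linarith

/-- the part of the leg `[S, S + l]` before `x` -/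
noncomputable def cc (S l x : ℝ) : ℝ := clamp ((x - S) / l)

theorem cc_zero {S l x : ℝ} (hl : 0 < l) (h : x ≤ S) : cc S l x = 0 :=
  pl_clamp_zero (div_nonpos_of_nonpos_of_nonneg (by linarith) hl.le)

theorem cc_one {S l x : ℝ} (hl : 0 < l) (h : S + l ≤ x) : cc S l x = 1 :=
  pl_clamp_one (by rw [le_div_iff₀ hl]; linarith)

theorem cc_id {S l x : ℝ} (hl : 0 < l) (h1 : S ≤ x) (h2 : x ≤ S + l) :
    cc S l x = (x - S) / l :=
  pl_clamp_id (div_nonneg (by linarith) hl.le) (by rw [div_le_iff₀ hl]; linarith)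

theorem cc_nonneg (S l x : ℝ) : 0 ≤ cc S l x := clamp_nonneg _

theorem cc_le_one (S l x : ℝ) : cc S l x ≤ 1 := clamp_le_one _

theorem cc_mono {S l x y : ℝ} (hl : 0 < l) (h : x ≤ y) : cc S l x ≤ cc S l y :=
  clamp_mono (div_le_div_of_nonneg_right (by linarith) hl.le)

theorem cc_lip {S l : ℝ} (hl : 0 < l) (x y : ℝ) : |cc S l x - cc S l y| ≤ |x - y| / l := by
  refine (clamp_lip _ _).trans (le_of_eq ?_)
  rw [← sub_div, abs_div, abs_of_pos hl]
  congr 2
  ring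

/-- the later leg is entered after the earlier leg -/
theorem cc_lt {S l S' l' x : ℝ} (hl : 0 < l) (hl' : 0 < l') (h : S + l ≤ S') :
    cc S l x = 1 ∨ cc S' l' x = 0 := by
  rcases le_total x S' with hx | hx
  · exact Or.inr (cc_zero hl' hx)
  · exact Or.inl (cc_one hl (h.trans hx))

/-- the point at the distance `x` on the path with three legs -/
noncomputable def qq (l0 l1 l2 : ℝ) (z0 z1 z2 z3 : ℂ) (x : ℝ) : ℂ :=
  z0 + ((cc 0 l0 x : ℝ) : ℂ) * (z1 - z0) + ((cc l0 l1 x : ℝ) : ℂ) * (z2 - z1) +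
    ((cc (l0 + l1) l2 x : ℝ) : ℂ) * (z3 - z2)

theorem pol_eq {l0 l1 l2 : ℝ} (h0 : 0 < l0) (h1 : 0 < l1) (h2 : 0 < l2) (z0 z1 z2 z3 : ℂ)
    (x : ℝ) (s : unitInterval)
    (hs : (s : ℝ) * 3 = cc 0 l0 x + cc l0 l1 x + cc (l0 + l1) l2 x) :
    pol z0 z1 z2 z3 s = qq l0 l1 l2 z0 z1 z2 z3 x := by
  have a0 := cc_nonneg 0 l0 x
  have a1 := cc_nonneg l0 l1 x
  have a2 := cc_nonneg (l0 + l1) l2 x
  have b0 := cc_le_one 0 l0 x
  have b1 := cc_le_one l0 l1 x
  have b2 := cc_le_one (l0 + l1) l2 x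
  have k0 : clamp ((s : ℝ) * 3 - 0) = cc 0 l0 x := by
    rcases cc_lt (x := x) (S := 0) (S' := l0) h0 h1 (by linarith) with h | h
    · rw [h]
      apply pl_clamp_one
      linarith
    · have h' : cc (l0 + l1) l2 x = 0 := by
        rcases cc_lt (x := x) (S := l0) (S' := l0 + l1) h1 h2 le_rfl with h3 | h3
        · linarith
        · exact h3
      rw [hs, h, h']
      rw [pl_clamp_id (by linarith) (by linarith)]
      ring
  have k1 : clamp ((s : ℝ) * 3 - 1) = cc l0 l1 x := by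
    rcases cc_lt (x := x) (S := 0) (S' := l0) h0 h1 (by linarith) with h | h
    · rcases cc_lt (x := x) (S := l0) (S' := l0 + l1) h1 h2 le_rfl with h3 | h3
      · rw [h3]
        apply pl_clamp_one
        linarith
      · rw [hs, h, h3]
        rw [pl_clamp_id (by linarith) (by linarith)]
        ring
    · have h' : cc (l0 + l1) l2 x = 0 := by
        rcases cc_lt (x := x) (S := l0) (S' := l0 + l1) h1 h2 le_rfl with h3 | h3
        · linarith
        · exact h3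
      rw [hs, h, h']
      apply pl_clamp_zero
      linarith
  have k2 : clamp ((s : ℝ) * 3 - 2) = cc (l0 + l1) l2 x := by
    rcases cc_lt (x := x) (S := l0) (S' := l0 + l1) h1 h2 le_rfl with h3 | h3
    · have h : cc 0 l0 x = 1 := by
        rcases cc_lt (x := x) (S := 0) (S' := l0) h0 h1 (by linarith) with h4 | h4
        · exact h4
        · linarith
      rw [hs, h, h3]
      rw [pl_clamp_id (by linarith) (by linarith)]
      ring
    · rw [hs, h3]
      apply pl_clamp_zero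
      linarith
  unfold pol qq
  rw [pl_apply', Finset.sum_range_succ, Finset.sum_range_succ, Finset.sum_range_succ,
    Finset.sum_range_zero]
  have e0 : clamp ((s : ℝ) * ((3 : ℕ) : ℝ) - ((0 : ℕ) : ℝ)) = cc 0 l0 x := by
    rw [← k0]; norm_num
  have e1 : clamp ((s : ℝ) * ((3 : ℕ) : ℝ) - ((1 : ℕ) : ℝ)) = cc l0 l1 x := by
    rw [← k1]; norm_num
  have e2 : clamp ((s : ℝ) * ((3 : ℕ) : ℝ) - ((2 : ℕ) : ℝ)) = cc (l0 + l1) l2 x := by
    rw [← k2]; norm_num
  rw [e0, e1, e2]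
  show z0 + (0 + ((cc 0 l0 x : ℝ) : ℂ) * (z1 - z0) + ((cc l0 l1 x : ℝ) : ℂ) * (z2 - z1) +
    ((cc (l0 + l1) l2 x : ℝ) : ℂ) * (z3 - z2)) = _
  ring

theorem qq_first {l0 l1 l2 : ℝ} (h0 : 0 < l0) (h1 : 0 < l1) (h2 : 0 < l2) (z0 z1 z2 z3 : ℂ)
    {x : ℝ} (hx : 0 ≤ x) (hx1 : x ≤ l0) :
    qq l0 l1 l2 z0 z1 z2 z3 x = z0 + ((x / l0 : ℝ) : ℂ) * (z1 - z0) := by
  unfold qq
  rw [cc_id h0 hx (by linarith), cc_zero h1 hx1, cc_zero h2 (by linarith), sub_zero]
  simp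

theorem qq_second {l0 l1 l2 : ℝ} (h0 : 0 < l0) (h1 : 0 < l1) (h2 : 0 < l2) (z0 z1 z2 z3 : ℂ)
    {x : ℝ} (hx : l0 ≤ x) (hx1 : x ≤ l0 + l1) :
    qq l0 l1 l2 z0 z1 z2 z3 x = z1 + (((x - l0) / l1 : ℝ) : ℂ) * (z2 - z1) := by
  unfold qq
  rw [cc_one h0 (by linarith), cc_id h1 hx hx1, cc_zero h2 hx1]
  simp

theorem qq_third {l0 l1 l2 : ℝ} (h0 : 0 < l0) (h1 : 0 < l1) (h2 : 0 < l2) (z0 z1 z2 z3 : ℂ)
    {x : ℝ} (hx : l0 + l1 ≤ x) (hx1 : x ≤ l0 + l1 + l2) :
    qq l0 l1 l2 z0 z1 z2 z3 x = z2 + (((x - (l0 + l1)) / l2 : ℝ) : ℂ) * (z3 - z2) := by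
  unfold qq
  rw [cc_one h0 (by linarith), cc_one h1 hx, cc_id h2 hx hx1]
  push_cast
  ring

theorem qq_near {l0 l1 l2 : ℝ} (h0 : 0 < l0) (h1 : 0 < l1) (h2 : 0 < l2)
    {z0 z1 z2 z3 Z0 Z1 Z2 Z3 : ℂ} {e : ℝ} (k0 : ‖Z0 - z0‖ ≤ e) (k1 : ‖Z1 - z1‖ ≤ e)
    (k2 : ‖Z2 - z2‖ ≤ e) (k3 : ‖Z3 - z3‖ ≤ e) (x : ℝ) :
    dist (qq l0 l1 l2 Z0 Z1 Z2 Z3 x) (qq l0 l1 l2 z0 z1 z2 z3 x) ≤ e := by
  have a0 := cc_nonneg 0 l0 x
  have a1 := cc_nonneg l0 l1 x
  have a2 := cc_nonneg (l0 + l1) l2 x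
  have b0 := cc_le_one 0 l0 x
  have b1 := cc_le_one l0 l1 x
  have b2 := cc_le_one (l0 + l1) l2 x
  have m1 : cc l0 l1 x ≤ cc 0 l0 x := by
    rcases cc_lt (x := x) (S := 0) (S' := l0) h0 h1 (by linarith) with h | h
    · rw [h]; exact b1
    · rw [h]; exact a0
  have m2 : cc (l0 + l1) l2 x ≤ cc l0 l1 x := by
    rcases cc_lt (x := x) (S := l0) (S' := l0 + l1) h1 h2 le_rfl with h | h
    · rw [h]; exact b2
    · rw [h]; exact a1
  unfold qq
  generalize cc 0 l0 x = c0 at *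
  generalize cc l0 l1 x = c1 at *
  generalize cc (l0 + l1) l2 x = c2 at *
  rw [dist_eq_norm]
  have E : Z0 + (c0 : ℂ) * (Z1 - Z0) + (c1 : ℂ) * (Z2 - Z1) + (c2 : ℂ) * (Z3 - Z2) -
      (z0 + (c0 : ℂ) * (z1 - z0) + (c1 : ℂ) * (z2 - z1) + (c2 : ℂ) * (z3 - z2)) =
      ((1 - c0 : ℝ) : ℂ) * (Z0 - z0) + ((c0 - c1 : ℝ) : ℂ) * (Z1 - z1) +
        ((c1 - c2 : ℝ) : ℂ) * (Z2 - z2) + ((c2 : ℝ) : ℂ) * (Z3 - z3) := by
    push_cast
    ring
  rw [E]
  refine (norm_add_le _ _).trans ?_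
  have A : ∀ (c : ℝ) (w : ℂ), 0 ≤ c → ‖w‖ ≤ e → ‖(c : ℂ) * w‖ ≤ c * e := by
    intro c w hc hw
    rw [norm_mul, Complex.norm_real, Real.norm_eq_abs, abs_of_nonneg hc]
    exact mul_le_mul_of_nonneg_left hw hc
  have u0 := A (1 - c0) _ (by linarith) k0
  have u1 := A (c0 - c1) _ (by linarith) k1
  have u2 := A (c1 - c2) _ (by linarith) k2
  have u3 := A c2 _ a2 k3
  have v1 := norm_add_le (((1 - c0 : ℝ) : ℂ) * (Z0 - z0)) (((c0 - c1 : ℝ) : ℂ) * (Z1 - z1))
  have v2 := norm_add_le (((1 - c0 : ℝ) : ℂ) * (Z0 - z0) + ((c0 - c1 : ℝ) : ℂ) * (Z1 - z1))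
    (((c1 - c2 : ℝ) : ℂ) * (Z2 - z2))
  nlinarith

theorem qq_lip {l0 l1 l2 : ℝ} (h0 : 0 < l0) (h1 : 0 < l1) (h2 : 0 < l2)
    {z0 z1 z2 z3 : ℂ} {v : ℝ} (k0 : ‖z1 - z0‖ ≤ v * l0) (k1 : ‖z2 - z1‖ ≤ v * l1)
    (k2 : ‖z3 - z2‖ ≤ v * l2) (x y : ℝ) :
    dist (qq l0 l1 l2 z0 z1 z2 z3 x) (qq l0 l1 l2 z0 z1 z2 z3 y) ≤ 3 * v * |x - y| := by
  have c0 := cc_lip (S := 0) h0 x y
  have c1 := cc_lip (S := l0) h1 x y
  have c2 := cc_lip (S := l0 + l1) h2 x y
  have A : ∀ (l c c' : ℝ) (w : ℂ), 0 < l → |c - c'| ≤ |x - y| / l → ‖w‖ ≤ v * l →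
      ‖((c - c' : ℝ) : ℂ) * w‖ ≤ v * |x - y| := by
    intro l c c' w hl hc hw
    rw [norm_mul, Complex.norm_real, Real.norm_eq_abs]
    calc |c - c'| * ‖w‖ ≤ |x - y| / l * (v * l) :=
          mul_le_mul hc hw (norm_nonneg _) (div_nonneg (abs_nonneg _) hl.le)
      _ = v * |x - y| := by field_simp
  have u0 := A _ _ _ _ h0 c0 k0
  have u1 := A _ _ _ _ h1 c1 k1
  have u2 := A _ _ _ _ h2 c2 k2
  rw [dist_eq_norm]
  have E : qq l0 l1 l2 z0 z1 z2 z3 x - qq l0 l1 l2 z0 z1 z2 z3 y =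
      ((cc 0 l0 x - cc 0 l0 y : ℝ) : ℂ) * (z1 - z0) +
      ((cc l0 l1 x - cc l0 l1 y : ℝ) : ℂ) * (z2 - z1) +
      ((cc (l0 + l1) l2 x - cc (l0 + l1) l2 y : ℝ) : ℂ) * (z3 - z2) := by
    unfold qq
    push_cast
    ring
  rw [E]
  have v1 := norm_add_le (((cc 0 l0 x - cc 0 l0 y : ℝ) : ℂ) * (z1 - z0))
    (((cc l0 l1 x - cc l0 l1 y : ℝ) : ℂ) * (z2 - z1))
  have v2 := norm_add_le (((cc 0 l0 x - cc 0 l0 y : ℝ) : ℂ) * (z1 - z0) +
    ((cc l0 l1 x - cc l0 l1 y : ℝ) : ℂ) * (z2 - z1))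
    (((cc (l0 + l1) l2 x - cc (l0 + l1) l2 y : ℝ) : ℂ) * (z3 - z2))
  linarith

theorem match_abs {N : ℕ} (hN : 0 < N) (p : ℕ → ℂ) (M : ℕ → ℤ) {l0 l1 l2 : ℝ} (hl0 : 0 < l0)
    (hl1 : 0 < l1) (hl2 : 0 < l2) {z0 z1 z2 z3 Z0 Z1 Z2 Z3 : ℂ} {e1 e2 e3 v J : ℝ}
    (hM0 : M 0 = 0) (hMN : (M N : ℝ) = l0 + l1 + l2) (hm : ∀ k < N, M k ≤ M (k + 1))
    (hJ : ∀ k < N, (M (k + 1) : ℝ) ≤ M k + J)
    (hp : ∀ k ≤ N, dist (p k) (qq l0 l1 l2 Z0 Z1 Z2 Z3 (M k)) ≤ e2)
    (hs : ∀ k < N, dist (p k) (p (k + 1)) ≤ e3)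
    (k0 : ‖Z0 - z0‖ ≤ e1) (k1 : ‖Z1 - z1‖ ≤ e1) (k2 : ‖Z2 - z2‖ ≤ e1) (k3 : ‖Z3 - z3‖ ≤ e1)
    (v0 : ‖z1 - z0‖ ≤ v * l0) (v1 : ‖z2 - z1‖ ≤ v * l1) (v2 : ‖z3 - z2‖ ≤ v * l2)
    (hv : 0 ≤ v) :
    H342L.cdist (pl N p) (pol z0 z1 z2 z3) ≤ e1 + e2 + e3 + 3 * v * J := by
  -- the position as a function of time
  obtain ⟨φ, hφ⟩ : ∃ φ : unitInterval → ℝ, φ = fun s => (pl N (fun k => ((M k : ℝ) : ℂ)) s).re :=
    ⟨_, rfl⟩
  have hφc : Continuous φ := by
    rw [hφ]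
    exact Complex.continuous_re.comp (pl N _).continuous
  have hφs : ∀ s, φ s = M 0 + ∑ k ∈ Finset.range N,
      clamp ((s : ℝ) * N - k) * ((M (k + 1) : ℝ) - M k) := by
    intro s
    rw [hφ]
    simp only
    rw [pl_apply', Complex.add_re, Complex.re_sum]
    congr 1
    refine Finset.sum_congr rfl fun k _ => ?_
    rw [← Complex.ofReal_sub, ← Complex.ofReal_mul, Complex.ofReal_re]
  have hφm : Monotone φ := by
    intro s t hst
    rw [hφs, hφs]
    have : ∑ k ∈ Finset.range N, clamp ((s : ℝ) * N - k) * ((M (k + 1) : ℝ) - M k) ≤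
        ∑ k ∈ Finset.range N, clamp ((t : ℝ) * N - k) * ((M (k + 1) : ℝ) - M k) := by
      refine Finset.sum_le_sum fun k hk => ?_
      rw [Finset.mem_range] at hk
      have h1 : (M k : ℝ) ≤ M (k + 1) := by exact_mod_cast hm k hk
      refine mul_le_mul_of_nonneg_right (clamp_mono ?_) (by linarith)
      have h2 : (s : ℝ) ≤ t := hst
      have h3 : (0 : ℝ) ≤ N := Nat.cast_nonneg N
      nlinarith
    linarith
  have hφ0 : φ 0 = 0 := by
    rw [hφ]
    simp only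
    rw [pl_zero, Complex.ofReal_re, hM0]
    simp
  have hφ1 : φ 1 = l0 + l1 + l2 := by
    rw [hφ]
    simp only
    rw [pl_one, Complex.ofReal_re, hMN]
  -- the reparametrisation
  obtain ⟨be, hbe⟩ : ∃ be : unitInterval → unitInterval, ∀ s, (be s : ℝ) * 3 =
      cc 0 l0 (φ s) + cc l0 l1 (φ s) + cc (l0 + l1) l2 (φ s) := by
    refine ⟨fun s => ⟨(cc 0 l0 (φ s) + cc l0 l1 (φ s) + cc (l0 + l1) l2 (φ s)) / 3, ?_, ?_⟩, ?_⟩
    · have a0 := cc_nonneg 0 l0 (φ s)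
      have a1 := cc_nonneg l0 l1 (φ s)
      have a2 := cc_nonneg (l0 + l1) l2 (φ s)
      positivity
    · have b0 := cc_le_one 0 l0 (φ s)
      have b1 := cc_le_one l0 l1 (φ s)
      have b2 := cc_le_one (l0 + l1) l2 (φ s)
      linarith
    · intro s
      simp only
      ring
  have hbe' : ∀ s, (be s : ℝ) =
      (cc 0 l0 (φ s) + cc l0 l1 (φ s) + cc (l0 + l1) l2 (φ s)) / 3 := by
    intro s
    have := hbe s
    linarith
  have hcc : ∀ S l : ℝ, Continuous fun s => cc S l (φ s) := by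
    intro S l
    unfold cc clamp
    exact continuous_const.max (continuous_const.min ((hφc.sub continuous_const).div_const _))
  refine Pool.Agent.Zk25.NS.cdist_le_of_mono _ _ be ?_ ?_ ?_ ?_ _ fun s => ?_
  · rw [continuous_induced_rng]
    have : (Subtype.val ∘ be) = fun s =>
        (cc 0 l0 (φ s) + cc l0 l1 (φ s) + cc (l0 + l1) l2 (φ s)) / 3 := by
      funext s
      exact hbe' s
    rw [this]
    exact (((hcc _ _).add (hcc _ _)).add (hcc _ _)).div_const _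
  · intro s t hst
    show (be s : ℝ) ≤ be t
    rw [hbe', hbe']
    have h := hφm hst
    have c0 := cc_mono (S := 0) hl0 h
    have c1 := cc_mono (S := l0) hl1 h
    have c2 := cc_mono (S := l0 + l1) hl2 h
    linarith
  · apply Subtype.ext
    rw [hbe', hφ0, cc_zero hl0 le_rfl, cc_zero hl1 hl0.le, cc_zero hl2 (by linarith)]
    simp
  · apply Subtype.ext
    rw [hbe', hφ1, cc_one hl0 (by linarith), cc_one hl1 (by linarith), cc_one hl2 le_rfl]
    norm_num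
  · rw [pol_eq hl0 hl1 hl2 z0 z1 z2 z3 (φ s) (be s) (hbe s)]
    obtain ⟨k, hk, s1, s2⟩ := pl_exists_seg hN s
    have f1 : dist (pl N p s) (p k) ≤ e3 := by
      rw [pl_seg hk s1 s2, dist_eq_norm]
      have e : p k + (((s : ℝ) * N - k : ℝ) : ℂ) * (p (k + 1) - p k) - p k =
          (((s : ℝ) * N - k : ℝ) : ℂ) * (p (k + 1) - p k) := by ring
      rw [e, norm_mul, Complex.norm_real, Real.norm_eq_abs, abs_of_nonneg (by linarith)]
      have h3 := hs k hk
      rw [dist_comm, dist_eq_norm] at h3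
      have h4 := norm_nonneg (p (k + 1) - p k)
      nlinarith
    have f2 := hp k hk.le
    have f3 := qq_near hl0 hl1 hl2 k0 k1 k2 k3 (M k : ℝ)
    have f4 := qq_lip hl0 hl1 hl2 v0 v1 v2 (M k : ℝ) (φ s)
    have f5 : |(M k : ℝ) - φ s| ≤ J := by
      have e : φ s = M k + ((s : ℝ) * N - k) * ((M (k + 1) : ℝ) - M k) := by
        rw [hφ]
        simp only
        rw [pl_seg hk s1 s2, ← Complex.ofReal_sub, ← Complex.ofReal_mul, ← Complex.ofReal_add,
          Complex.ofReal_re]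
      have h1 : (M k : ℝ) ≤ M (k + 1) := by exact_mod_cast hm k hk
      have h2 := hJ k hk
      rw [e, abs_sub_comm, add_sub_cancel_left, abs_of_nonneg (mul_nonneg (by linarith)
        (by linarith))]
      nlinarith
    have f6 : 3 * v * |(M k : ℝ) - φ s| ≤ 3 * v * J :=
      mul_le_mul_of_nonneg_left f5 (by linarith)
    have f7 := dist_triangle4 (pl N p s) (p k) (qq l0 l1 l2 Z0 Z1 Z2 Z3 (M k))
      (qq l0 l1 l2 z0 z1 z2 z3 (M k))
    have f8 := dist_triangle (pl N p s) (qq l0 l1 l2 z0 z1 z2 z3 (M k))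
      (qq l0 l1 l2 z0 z1 z2 z3 (φ s))
    linarith

/-- the point of the plane of a lattice vertex -/
noncomputable def vp (δ : ℝ) (v : Vtx) : ℂ := ⟨δ * v.1, δ * (v.2 + 1)⟩

theorem dist_vp {δ : ℝ} (hδ : 0 ≤ δ) (σ : St) (v : Vtx) :
    dist (pos δ σ) (vp δ v) ≤ δ * (2 * ((sd v σ.1 : ℤ) : ℝ) + 1) := by
  have h1 : |(pos δ σ).re - (vp δ v).re| ≤ δ * (|((v.1 - σ.1.1 : ℤ) : ℝ)| + 1/2) := by
    have e : (pos δ σ).re - (vp δ v).re = δ * (-((v.1 - σ.1.1 : ℤ) : ℝ) + ML.qx σ.2) := by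
      rw [ML.pos_re]
      show δ * (σ.1.1 + ML.qx σ.2) - δ * v.1 = _
      push_cast
      ring
    rw [e, abs_mul, abs_of_nonneg hδ]
    refine mul_le_mul_of_nonneg_left ((abs_add_le _ _).trans ?_) hδ
    rw [abs_neg]
    have := ML.qx_le σ.2
    linarith
  have h2 : |(pos δ σ).im - (vp δ v).im| ≤ δ * (|((v.2 - σ.1.2 : ℤ) : ℝ)| + 1/2) := by
    have e : (pos δ σ).im - (vp δ v).im = δ * (-((v.2 - σ.1.2 : ℤ) : ℝ) + ML.qy σ.2) := by
      rw [ML.pos_im]
      show δ * (σ.1.2 + 1 + ML.qy σ.2) - δ * (v.2 + 1) = _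
      push_cast
      ring
    rw [e, abs_mul, abs_of_nonneg hδ]
    refine mul_le_mul_of_nonneg_left ((abs_add_le _ _).trans ?_) hδ
    rw [abs_neg]
    have := ML.qy_le σ.2
    linarith
  refine (ML.dist_le_of h1 h2).trans ?_
  rw [ML.sd_cast]
  have h3 := le_max_left |((v.1 - σ.1.1 : ℤ) : ℝ)| |((v.2 - σ.1.2 : ℤ) : ℝ)|
  have h4 := le_max_right |((v.1 - σ.1.1 : ℤ) : ℝ)| |((v.2 - σ.1.2 : ℤ) : ℝ)|
  rw [← mul_add]
  exact mul_le_mul_of_nonneg_left (by linarith) hδ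

/-- the vertices of the complementary arc -/
theorem qq_av (δ : ℝ) (D : Dm) (h0 : (0 : ℝ) < D.r - D.t) (h1 : (0 : ℝ) < D.h)
    (h2 : (0 : ℝ) < D.r) (j : ℤ) (hj : 0 ≤ j) (hj' : j ≤ LR D) :
    qq (D.r - D.t) D.h D.r (vp δ (D.t, D.h)) (vp δ (D.r, D.h)) (vp δ (D.r, 0)) (vp δ (0, 0)) j =
      vp δ (av D j) := by
  have hj0 : (0 : ℝ) ≤ j := by exact_mod_cast hj
  have hj1 : (j : ℝ) ≤ (D.r - D.t) + D.h + D.r := by
    unfold LR at hj'
    exact_mod_cast hj'
  unfold av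
  split_ifs with c1 c2
  · have c1' : (j : ℝ) ≤ D.r - D.t := by exact_mod_cast c1
    rw [qq_first h0 h1 h2 _ _ _ _ hj0 c1']
    apply Complex.ext
    · simp only [vp, Complex.add_re, Complex.mul_re, Complex.sub_re, Complex.sub_im,
        Complex.ofReal_re, Complex.ofReal_im]
      push_cast
      field_simp
      ring
    · simp only [vp, Complex.add_im, Complex.mul_im, Complex.sub_re, Complex.sub_im,
        Complex.ofReal_re, Complex.ofReal_im]
      ring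
  · have c1' : (D.r : ℝ) - D.t ≤ j := by
      have : D.r - D.t ≤ j := by omega
      exact_mod_cast this
    have c2' : (j : ℝ) ≤ (D.r - D.t) + D.h := by exact_mod_cast c2
    rw [qq_second h0 h1 h2 _ _ _ _ c1' c2']
    apply Complex.ext
    · simp only [vp, Complex.add_re, Complex.mul_re, Complex.sub_re, Complex.sub_im,
        Complex.ofReal_re, Complex.ofReal_im]
      ring
    · simp only [vp, Complex.add_im, Complex.mul_im, Complex.sub_re, Complex.sub_im,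
        Complex.ofReal_re, Complex.ofReal_im]
      push_cast
      field_simp
      ring
  · have c2' : ((D.r : ℝ) - D.t) + D.h ≤ j := by
      have : D.r - D.t + D.h ≤ j := by omega
      exact_mod_cast this
    rw [qq_third h0 h1 h2 _ _ _ _ c2' hj1]
    apply Complex.ext
    · simp only [vp, Complex.add_re, Complex.mul_re, Complex.sub_re, Complex.sub_im,
        Complex.ofReal_re, Complex.ofReal_im]
      push_cast
      field_simp
      ring
    · simp only [vp, Complex.add_im, Complex.mul_im, Complex.sub_re, Complex.sub_im,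
        Complex.ofReal_re, Complex.ofReal_im]
      push_cast
      ring

/-- the vertices of the wired arc -/
theorem qq_wv (δ : ℝ) (D : Dm) (h0 : (0 : ℝ) < D.t - D.l) (h1 : (0 : ℝ) < D.h)
    (h2 : (0 : ℝ) < -D.l) (j : ℤ) (hj : 0 ≤ j) (hj' : j ≤ LW D) :
    qq (D.t - D.l) D.h (-D.l) (vp δ (D.t, D.h)) (vp δ (D.l, D.h)) (vp δ (D.l, 0))
      (vp δ (0, 0)) j = vp δ (wv D j) := by
  have hj0 : (0 : ℝ) ≤ j := by exact_mod_cast hj
  have hj1 : (j : ℝ) ≤ (D.t - D.l) + D.h + (-D.l) := by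
    unfold LW at hj'
    have : j ≤ (D.t - D.l) + D.h + (-D.l) := by omega
    exact_mod_cast this
  have h2' : (D.l : ℝ) ≠ 0 := by
    intro h
    rw [h] at h2
    simp at h2
  unfold wv
  split_ifs with c1 c2
  · have c1' : (j : ℝ) ≤ D.t - D.l := by exact_mod_cast c1
    rw [qq_first h0 h1 h2 _ _ _ _ hj0 c1']
    apply Complex.ext
    · simp only [vp, Complex.add_re, Complex.mul_re, Complex.sub_re, Complex.sub_im,
        Complex.ofReal_re, Complex.ofReal_im]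
      push_cast
      field_simp
      ring
    · simp only [vp, Complex.add_im, Complex.mul_im, Complex.sub_re, Complex.sub_im,
        Complex.ofReal_re, Complex.ofReal_im]
      ring
  · have c1' : (D.t : ℝ) - D.l ≤ j := by
      have : D.t - D.l ≤ j := by omega
      exact_mod_cast this
    have c2' : (j : ℝ) ≤ (D.t - D.l) + D.h := by exact_mod_cast c2
    rw [qq_second h0 h1 h2 _ _ _ _ c1' c2']
    apply Complex.ext
    · simp only [vp, Complex.add_re, Complex.mul_re, Complex.sub_re, Complex.sub_im,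
        Complex.ofReal_re, Complex.ofReal_im]
      ring
    · simp only [vp, Complex.add_im, Complex.mul_im, Complex.sub_re, Complex.sub_im,
        Complex.ofReal_re, Complex.ofReal_im]
      push_cast
      field_simp
      ring
  · have c2' : ((D.t : ℝ) - D.l) + D.h ≤ j := by
      have : D.t - D.l + D.h ≤ j := by omega
      exact_mod_cast this
    rw [qq_third h0 h1 h2 _ _ _ _ c2' hj1]
    apply Complex.ext
    · simp only [vp, Complex.add_re, Complex.mul_re, Complex.sub_re, Complex.sub_im,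
        Complex.ofReal_re, Complex.ofReal_im]
      push_cast
      field_simp
      ring
    · simp only [vp, Complex.add_im, Complex.mul_im, Complex.sub_re, Complex.sub_im,
        Complex.ofReal_re, Complex.ofReal_im]
      push_cast
      ring

theorem norm_le_of {w : ℂ} {a b : ℝ} (h1 : |w.re| ≤ a) (h2 : |w.im| ≤ b) : ‖w‖ ≤ a + b :=
  (Complex.norm_le_abs_re_add_abs_im _).trans (add_le_add h1 h2)

/-- the general form for both arcs -/
theorem mat_of {R : Rect} {δ : ℝ} (hδ : 0 < δ) {F : Finset Edg} {m : ℕ} {M : ℕ → ℤ} {L : ℤ}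
    {a : ℤ → Vtx} (hM : Fol (R.dm δ) F m L a M) {l0 l1 l2 : ℝ} (hl0 : 0 < l0) (hl1 : 0 < l1)
    (hl2 : 0 < l2) (hL : (L : ℝ) = l0 + l1 + l2) {z0 z1 z2 z3 Z0 Z1 Z2 Z3 : ℂ}
    (ha : ∀ j : ℤ, 0 ≤ j → j ≤ L → qq l0 l1 l2 Z0 Z1 Z2 Z3 j = vp δ (a j))
    (k0 : ‖Z0 - z0‖ ≤ 2 * δ) (k1 : ‖Z1 - z1‖ ≤ 2 * δ) (k2 : ‖Z2 - z2‖ ≤ 2 * δ)
    (k3 : ‖Z3 - z3‖ ≤ 2 * δ)
    (v0 : ‖z1 - z0‖ ≤ 2 * δ * l0) (v1 : ‖z2 - z1‖ ≤ 2 * δ * l1)
    (v2 : ‖z3 - z2‖ ≤ 2 * δ * l2) :
    H342L.cdist (R.curve δ F) (pol z0 z1 z2 z3) ≤ 36 * (m + 1) * δ := by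
  obtain ⟨N, hN⟩ : ∃ N, N = (R.dm δ).len F := ⟨_, rfl⟩
  have hzero := hM.zero
  have hlast := hM.last
  have hmono := hM.mono
  have hjump := hM.jump
  have hnear := hM.near
  rw [← hN] at hlast hmono hjump hnear
  have hchain : ∀ k j : ℕ, k ≤ j → j ≤ N → M k ≤ M j := by
    intro k j hkj
    induction j, hkj using Nat.le_induction with
    | base => intro _; exact le_rfl
    | succ j _ ih =>
      intro hj
      exact (ih (by omega)).trans (hmono j (by omega))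
  have hN0 : 0 < N := by
    rcases Nat.eq_zero_or_pos N with h | h
    · exfalso
      rw [h, hzero] at hlast
      rw [← hlast] at hL
      push_cast at hL
      linarith
    · exact h
  have hm0 : (0 : ℝ) ≤ m := Nat.cast_nonneg m
  have key := match_abs (N := N) hN0 (fun k => pos δ ((R.dm δ).walk F k)) M hl0 hl1 hl2
    (Z0 := Z0) (Z1 := Z1) (Z2 := Z2) (Z3 := Z3) (z0 := z0) (z1 := z1) (z2 := z2) (z3 := z3)
    (e1 := 2 * δ) (e2 := δ * (2 * (2 * m + 4) + 1)) (e3 := δ / 2) (v := 2 * δ) (J := 2 * m + 4)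
    hzero (by rw [hlast, hL]) hmono ?_ ?_ ?_ k0 k1 k2 k3 v0 v1 v2 (by linarith)
  · have e : R.curve δ F = pl N (fun k => pos δ ((R.dm δ).walk F k)) := by
      rw [hN]
      rfl
    rw [e]
    refine key.trans ?_
    nlinarith
  · intro k hk
    exact_mod_cast hjump k hk
  · intro k hk
    have h1 : 0 ≤ M k := by
      have := hchain 0 k (by omega) hk
      rwa [hzero] at this
    have h2 : M k ≤ L := by
      have := hchain k N hk le_rfl
      rwa [hlast] at this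
    rw [ha _ h1 h2]
    refine (dist_vp hδ.le _ _).trans (mul_le_mul_of_nonneg_left ?_ hδ.le)
    have h3 : ((sd (a (M k)) ((R.dm δ).walk F k).1 : ℤ) : ℝ) ≤ 2 * m + 4 := by
      exact_mod_cast hnear k hk
    linarith
  · intro k hk
    have e : (R.dm δ).walk F (k + 1) = nxt ((R.dm δ).cfg F) ((R.dm δ).walk F k) :=
      orb_succ _ _ _
    simp only [e]
    exact pos_nxt hδ.le _ _

theorem t_MAT : S_MAT := by
  intro R
  have hA := R.hA
  have hB := R.hB
  have hH := R.hH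
  have ht1 := R.ht1
  have ht2 := R.ht2
  refine ⟨36, min (min (R.A / 4) (R.B / 4)) (min (R.H / 4) (min ((R.B - R.t) / 4)
    ((R.t + R.A) / 4))), by norm_num, ?_, fun δ hδ hle F _ m M => ?_⟩
  · refine lt_min (lt_min (by linarith) (by linarith)) (lt_min (by linarith)
      (lt_min (by linarith) (by linarith)))
  have dA : δ ≤ R.A / 4 := hle.trans ((min_le_left _ _).trans (min_le_left _ _))
  have dB : δ ≤ R.B / 4 := hle.trans ((min_le_left _ _).trans (min_le_right _ _))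
  have dH : δ ≤ R.H / 4 := hle.trans ((min_le_right _ _).trans (min_le_left _ _))
  have dr : δ ≤ (R.B - R.t) / 4 :=
    hle.trans ((min_le_right _ _).trans ((min_le_right _ _).trans (min_le_left _ _)))
  have dl : δ ≤ (R.t + R.A) / 4 :=
    hle.trans ((min_le_right _ _).trans ((min_le_right _ _).trans (min_le_right _ _)))
  obtain ⟨l, hl⟩ : ∃ l, l = (R.dm δ).l := ⟨_, rfl⟩
  obtain ⟨r, hr⟩ : ∃ r, r = (R.dm δ).r := ⟨_, rfl⟩
  obtain ⟨h, hh⟩ : ∃ h, h = (R.dm δ).h := ⟨_, rfl⟩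
  obtain ⟨t, ht⟩ : ∃ t, t = (R.dm δ).t := ⟨_, rfl⟩
  have hl' : l = ⌊-(R.A / δ)⌋ + 1 := hl
  have hr' : r = ⌈R.B / δ⌉ - 1 := hr
  have hh' : h = ⌈R.H / δ⌉ - 2 := hh
  have ht' : t = ⌊R.t / δ⌋ := ht
  have fl : ((⌊-(R.A / δ)⌋ : ℤ) : ℝ) ≤ -(R.A / δ) := Int.floor_le _
  have fl' : -(R.A / δ) < ((⌊-(R.A / δ)⌋ : ℤ) : ℝ) + 1 := Int.lt_floor_add_one _
  have cB : R.B / δ ≤ ((⌈R.B / δ⌉ : ℤ) : ℝ) := Int.le_ceil _
  have cB' : ((⌈R.B / δ⌉ : ℤ) : ℝ) < R.B / δ + 1 := Int.ceil_lt_add_one _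
  have cH : R.H / δ ≤ ((⌈R.H / δ⌉ : ℤ) : ℝ) := Int.le_ceil _
  have cH' : ((⌈R.H / δ⌉ : ℤ) : ℝ) < R.H / δ + 1 := Int.ceil_lt_add_one _
  have ft : ((⌊R.t / δ⌋ : ℤ) : ℝ) ≤ R.t / δ := Int.floor_le _
  have ft' : R.t / δ < ((⌊R.t / δ⌋ : ℤ) : ℝ) + 1 := Int.lt_floor_add_one _
  -- bounds for the sides of the lattice rectangle, times `δ`
  have eA : δ * (R.A / δ) = R.A := mul_div_cancel₀ _ hδ.ne'
  have eB : δ * (R.B / δ) = R.B := mul_div_cancel₀ _ hδ.ne'
  have eH : δ * (R.H / δ) = R.H := mul_div_cancel₀ _ hδ.ne'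
  have et : δ * (R.t / δ) = R.t := mul_div_cancel₀ _ hδ.ne'
  have l1 : -R.A ≤ δ * l := by
    have : -(R.A / δ) ≤ (l : ℝ) := by rw [hl']; push_cast; linarith
    have := mul_le_mul_of_nonneg_left this hδ.le
    linarith
  have l2 : δ * l ≤ -R.A + δ := by
    have : (l : ℝ) ≤ -(R.A / δ) + 1 := by rw [hl']; push_cast; linarith
    have := mul_le_mul_of_nonneg_left this hδ.le
    linarith
  have r1 : R.B - δ ≤ δ * r := by
    have : R.B / δ - 1 ≤ (r : ℝ) := by rw [hr']; push_cast; linarith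
    have := mul_le_mul_of_nonneg_left this hδ.le
    linarith
  have r2 : δ * r ≤ R.B := by
    have : (r : ℝ) ≤ R.B / δ := by rw [hr']; push_cast; linarith
    have := mul_le_mul_of_nonneg_left this hδ.le
    linarith
  have h1 : R.H - 2 * δ ≤ δ * h := by
    have : R.H / δ - 2 ≤ (h : ℝ) := by rw [hh']; push_cast; linarith
    have := mul_le_mul_of_nonneg_left this hδ.le
    linarith
  have h2 : δ * h ≤ R.H - δ := by
    have : (h : ℝ) ≤ R.H / δ - 1 := by rw [hh']; push_cast; linarith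
    have := mul_le_mul_of_nonneg_left this hδ.le
    linarith
  have t1 : R.t - δ ≤ δ * t := by
    have : R.t / δ - 1 ≤ (t : ℝ) := by rw [ht']; push_cast; linarith
    have := mul_le_mul_of_nonneg_left this hδ.le
    linarith
  have t2 : δ * t ≤ R.t := by
    have : (t : ℝ) ≤ R.t / δ := by rw [ht']; exact ft
    have := mul_le_mul_of_nonneg_left this hδ.le
    linarith
  have p : ∀ x : ℝ, 0 < δ * x → 0 < x := fun x hx => (pos_iff_pos_of_mul_pos hx).1 hδ
  have ph : (0 : ℝ) < h := p _ (by linarith)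
  have pr : (0 : ℝ) < r := p _ (by linarith)
  have pl' : (0 : ℝ) < -l := p _ (by linarith)
  have prt : (0 : ℝ) < r - t := p _ (by linarith)
  have ptl : (0 : ℝ) < t - l := p _ (by linarith)
  rw [hh] at ph
  rw [hr] at pr
  rw [hl] at pl'
  rw [hr, ht] at prt
  rw [ht, hl] at ptl
  rw [hl] at l1 l2
  rw [hr] at r1 r2
  rw [hh] at h1 h2
  rw [ht] at t1 t2
  have n0 : ‖vp δ ((R.dm δ).t, (R.dm δ).h) - R.a‖ ≤ 2 * δ := by
    refine (norm_le_of (a := δ) (b := δ) ?_ ?_).trans (by linarith)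
    · rw [Complex.sub_re]
      show |δ * ((R.dm δ).t : ℝ) - R.t| ≤ δ
      rw [abs_le]
      constructor <;> linarith
    · rw [Complex.sub_im]
      show |δ * (((R.dm δ).h : ℝ) + 1) - R.H| ≤ δ
      rw [abs_le]
      constructor <;> linarith
  have n3 : ‖vp δ (0, 0) - 0‖ ≤ 2 * δ := by
    refine (norm_le_of (a := δ) (b := δ) ?_ ?_).trans (by linarith)
    · rw [sub_zero]
      show |δ * ((0 : ℤ) : ℝ)| ≤ δ
      rw [Int.cast_zero, mul_zero, abs_zero]
      exact hδ.le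
    · rw [sub_zero]
      show |δ * (((0 : ℤ) : ℝ) + 1)| ≤ δ
      rw [Int.cast_zero, zero_add, mul_one, abs_of_pos hδ]
  refine ⟨fun hM => ?_, fun hM => ?_⟩
  · unfold arcR
    refine mat_of hδ hM prt ph pr ?_ (fun j hj hj' => qq_av δ (R.dm δ) prt ph pr j hj hj')
      n0 ?_ ?_ n3 ?_ ?_ ?_
    · unfold LR
      push_cast
      ring
    · refine (norm_le_of (a := δ) (b := δ) ?_ ?_).trans (by linarith)
      · rw [Complex.sub_re]
        show |δ * ((R.dm δ).r : ℝ) - R.B| ≤ δ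
        rw [abs_le]
        constructor <;> linarith
      · rw [Complex.sub_im]
        show |δ * (((R.dm δ).h : ℝ) + 1) - R.H| ≤ δ
        rw [abs_le]
        constructor <;> linarith
    · refine (norm_le_of (a := δ) (b := δ) ?_ ?_).trans (by linarith)
      · rw [Complex.sub_re]
        show |δ * ((R.dm δ).r : ℝ) - R.B| ≤ δ
        rw [abs_le]
        constructor <;> linarith
      · rw [Complex.sub_im]
        show |δ * (((0 : ℤ) : ℝ) + 1) - 0| ≤ δ
        rw [Int.cast_zero, zero_add, mul_one, sub_zero, abs_of_pos hδ]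
    · refine (norm_le_of (a := R.B - R.t) (b := 0) ?_ ?_).trans (by linarith)
      · rw [Complex.sub_re]
        show |R.B - R.t| ≤ R.B - R.t
        rw [abs_of_pos (by linarith)]
      · rw [Complex.sub_im]
        show |R.H - R.H| ≤ 0
        simp
    · refine (norm_le_of (a := 0) (b := R.H) ?_ ?_).trans (by linarith)
      · rw [Complex.sub_re]
        show |R.B - R.B| ≤ 0
        simp
      · rw [Complex.sub_im]
        show |0 - R.H| ≤ R.H
        rw [zero_sub, abs_neg, abs_of_pos hH]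
    · refine (norm_le_of (a := R.B) (b := 0) ?_ ?_).trans (by linarith)
      · rw [Complex.sub_re]
        show |0 - R.B| ≤ R.B
        rw [zero_sub, abs_neg, abs_of_pos hB]
      · rw [Complex.sub_im]
        show |(0 : ℝ) - 0| ≤ 0
        simp
  · unfold arcL
    refine mat_of hδ hM ptl ph pl' ?_ (fun j hj hj' => qq_wv δ (R.dm δ) ptl ph pl' j hj hj')
      n0 ?_ ?_ n3 ?_ ?_ ?_
    · unfold LW
      push_cast
      ring
    · refine (norm_le_of (a := δ) (b := δ) ?_ ?_).trans (by linarith)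
      · rw [Complex.sub_re]
        show |δ * ((R.dm δ).l : ℝ) - (-R.A)| ≤ δ
        rw [abs_le]
        constructor <;> linarith
      · rw [Complex.sub_im]
        show |δ * (((R.dm δ).h : ℝ) + 1) - R.H| ≤ δ
        rw [abs_le]
        constructor <;> linarith
    · refine (norm_le_of (a := δ) (b := δ) ?_ ?_).trans (by linarith)
      · rw [Complex.sub_re]
        show |δ * ((R.dm δ).l : ℝ) - (-R.A)| ≤ δ
        rw [abs_le]
        constructor <;> linarith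
      · rw [Complex.sub_im]
        show |δ * (((0 : ℤ) : ℝ) + 1) - 0| ≤ δ
        rw [Int.cast_zero, zero_add, mul_one, sub_zero, abs_of_pos hδ]
    · refine (norm_le_of (a := R.t + R.A) (b := 0) ?_ ?_).trans (by linarith)
      · rw [Complex.sub_re]
        show |-R.A - R.t| ≤ R.t + R.A
        rw [abs_le]
        constructor <;> linarith
      · rw [Complex.sub_im]
        show |R.H - R.H| ≤ 0
        simp
    · refine (norm_le_of (a := 0) (b := R.H) ?_ ?_).trans (by linarith)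
      · rw [Complex.sub_re]
        show |-R.A - (-R.A)| ≤ 0
        simp
      · rw [Complex.sub_im]
        show |0 - R.H| ≤ R.H
        rw [zero_sub, abs_neg, abs_of_pos hH]
    · refine (norm_le_of (a := R.A) (b := 0) ?_ ?_).trans (by linarith)
      · rw [Complex.sub_re]
        show |0 - (-R.A)| ≤ R.A
        rw [zero_sub, abs_neg, abs_neg, abs_of_pos hA]
      · rw [Complex.sub_im]
        show |(0 : ℝ) - 0| ≤ 0
        simp

end Pool.Agent.Zk11.CO
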